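import Pool.Agent.W418.LCI.Field
import Pool.Agent.W558.Var
import Pool.Agent.W558.S.All
import Pool.Agent.W558.Stage

set_option autoImplicit false
set_option linter.unusedVariables false
set_option linter.unusedSectionVars false

universe u

open Pool.Agent.W558 MvPolynomial

namespace Pool.Agent.V11261.AK

section blowup

variable {k B E : Type u} [Field k] [CommRing B] [Algebra k B] [Field E]
  [Algebra k E] [Algebra B E] [IsScalarTower k B E]

/-- The coordinate ring of the chart `y q ≠ 0` of the blowup of the ideal generated by the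
`y q'`. -/
noncomputable def blc (k : Type u) {B : Type u} (E : Type u) [Field k] [CommRing B] [Algebra k B]
    [Field E] [Algebra k E] [Algebra B E] {Q : Type} (y : Q → B) (q : Q) : Subalgebra k E :=
  Algebra.adjoin k (Set.range (algebraMap B E) ∪
    Set.range fun q' => algebraMap B E (y q') / algebraMap B E (y q))

lemma base_mem_blc {Q : Type} (y : Q → B) (q : Q) (b : B) : algebraMap B E b ∈ blc k E y q :=
  Algebra.subset_adjoin (Or.inl ⟨b, rfl⟩)

lemma div_mem_blc {Q : Type} (y : Q → B) (q q' : Q) :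
    algebraMap B E (y q') / algebraMap B E (y q) ∈ blc k E y q :=
  Algebra.subset_adjoin (Or.inr ⟨q', rfl⟩)

/-- The model given by the blowup. -/
theorem exists_blowup_LM {Q : Type} [Finite Q] (y : Q → B)
    (hy : ∃ q, algebraMap B E (y q) ≠ 0)
    (hs : ∀ q, algebraMap B E (y q) ≠ 0 → Algebra.Smooth k (blc k E y q)) :
    ∃ M : LM (IsScalarTower.toAlgHom k B E).range (IsScalarTower.toAlgHom k B E).range
      {q : Q // algebraMap B E (y q) ≠ 0} Empty, ∀ t, M.A t = blc k E y t.1 := by
  classical
  let ψ : B →ₐ[k] E := IsScalarTower.toAlgHom k B E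
  let T := {q : Q // algebraMap B E (y q) ≠ 0}
  have hgl : ∀ t t' : T, ∀ f ∈ blc k E y t'.1, ∃ n : ℕ,
      (ψ (y t'.1) / ψ (y t.1)) ^ n * f ∈ blc k E y t.1 := by
    intro t t' f hf
    have hmono : ∀ (n m : ℕ) (f : E), n ≤ m → (ψ (y t'.1) / ψ (y t.1)) ^ n * f ∈ blc k E y t.1 →
        (ψ (y t'.1) / ψ (y t.1)) ^ m * f ∈ blc k E y t.1 := by
      intro n m f hnm h
      obtain ⟨e, rfl⟩ := Nat.exists_eq_add_of_le hnm
      rw [add_comm, pow_add, mul_assoc]
      exact Subalgebra.mul_mem _ (Subalgebra.pow_mem _ (div_mem_blc y t.1 t'.1) e) h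
    unfold blc at hf
    induction hf using Algebra.adjoin_induction with
    | mem x hx =>
      rcases hx with ⟨b, rfl⟩ | ⟨q', rfl⟩
      · exact ⟨0, by rw [pow_zero, one_mul]; exact base_mem_blc y _ b⟩
      · refine ⟨1, ?_⟩
        have h1 : (ψ (y t'.1) / ψ (y t.1)) ^ 1 * (algebraMap B E (y q') / algebraMap B E (y t'.1)) =
            algebraMap B E (y q') / algebraMap B E (y t.1) := by
          have h2 := t'.2
          change (algebraMap B E (y t'.1) / algebraMap B E (y t.1)) ^ 1 * _ = _
          field_simp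
        change (ψ (y t'.1) / ψ (y t.1)) ^ 1 * (algebraMap B E (y q') / algebraMap B E (y t'.1)) ∈ _
        rw [h1]
        exact div_mem_blc y _ _
    | algebraMap r =>
      exact ⟨0, by rw [pow_zero, one_mul]; exact Subalgebra.algebraMap_mem _ r⟩
    | add x z _ _ hx hz =>
      obtain ⟨n, hn⟩ := hx
      obtain ⟨m, hm⟩ := hz
      refine ⟨max n m, ?_⟩
      rw [mul_add]
      exact Subalgebra.add_mem _ (hmono _ _ _ (le_max_left _ _) hn)
        (hmono _ _ _ (le_max_right _ _) hm)
    | mul x z _ _ hx hz =>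
      obtain ⟨n, hn⟩ := hx
      obtain ⟨m, hm⟩ := hz
      refine ⟨n + m, ?_⟩
      rw [pow_add, mul_mul_mul_comm]
      exact Subalgebra.mul_mem _ hn hm
  have hdn : ∀ t : T, ∀ f ∈ blc k E y t.1, ∃ n : ℕ, ψ (y t.1) ^ n * f ∈ ψ.range := by
    intro t f hf
    have hmono : ∀ (n m : ℕ) (f : E), n ≤ m → ψ (y t.1) ^ n * f ∈ ψ.range →
        ψ (y t.1) ^ m * f ∈ ψ.range := by
      intro n m f hnm h
      obtain ⟨e, rfl⟩ := Nat.exists_eq_add_of_le hnm
      rw [add_comm, pow_add, mul_assoc]
      exact Subalgebra.mul_mem _ (Subalgebra.pow_mem ψ.range ⟨y t.1, rfl⟩ e) h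
    unfold blc at hf
    induction hf using Algebra.adjoin_induction with
    | mem x hx =>
      rcases hx with ⟨b, rfl⟩ | ⟨q', rfl⟩
      · exact ⟨0, by rw [pow_zero, one_mul]; exact ⟨b, rfl⟩⟩
      · refine ⟨1, ?_⟩
        have h1 : ψ (y t.1) ^ 1 * (algebraMap B E (y q') / algebraMap B E (y t.1)) =
            algebraMap B E (y q') := by
          have h2 := t.2
          change (algebraMap B E (y t.1)) ^ 1 * _ = _
          field_simp
        change ψ (y t.1) ^ 1 * (algebraMap B E (y q') / algebraMap B E (y t.1)) ∈ _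
        rw [h1]
        exact ⟨y q', rfl⟩
    | algebraMap r =>
      exact ⟨0, by rw [pow_zero, one_mul]; exact Subalgebra.algebraMap_mem _ r⟩
    | add x z _ _ hx hz =>
      obtain ⟨n, hn⟩ := hx
      obtain ⟨m, hm⟩ := hz
      refine ⟨max n m, ?_⟩
      rw [mul_add]
      exact Subalgebra.add_mem _ (hmono _ _ _ (le_max_left _ _) hn)
        (hmono _ _ _ (le_max_right _ _) hm)
    | mul x z _ _ hx hz =>
      obtain ⟨n, hn⟩ := hx
      obtain ⟨m, hm⟩ := hz
      refine ⟨n + m, ?_⟩
      rw [pow_add, mul_mul_mul_comm]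
      exact Subalgebra.mul_mem _ hn hm
  obtain ⟨q0, hq0⟩ := hy
  refine ⟨{ A := fun t => blc k E y t.1
            H := fun t => ψ (y t.1)
            x := fun _ i => i.elim
            sm := fun t => hs t.1 t.2
            base := fun t => ?_
            H0 := fun t => t.2
            HR := fun t => ⟨y t.1, rfl⟩
            rt := fun t t' => div_mem_blc y t.1 t'.1
            gl := hgl
            dn := hdn
            cv := ?_
            xA := fun _ i => i.elim
            x0 := fun _ i => i.elim
            gi := fun _ _ i => i.elim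
            snc := fun _ _ _ _ _ i => i.elim }, fun t => rfl⟩
  · rintro _ ⟨b, rfl⟩
    exact base_mem_blc y t.1 b
  · intro V hV
    have : Nonempty T := ⟨⟨q0, hq0⟩⟩
    obtain ⟨t, ht⟩ := Finite.exists_max (fun t : T => V.valuation (ψ (y t.1)))
    refine ⟨t, ?_⟩
    intro f hf
    have h0 : V.valuation (ψ (y t.1)) ≠ 0 := (map_ne_zero _).2 t.2
    have hf' : f ∈ Algebra.adjoin k (Set.range (algebraMap B E) ∪
      Set.range fun q' => algebraMap B E (y q') / algebraMap B E (y t.1)) := hf
    induction hf' using Algebra.adjoin_induction with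
    | mem x hx =>
      rcases hx with ⟨b, rfl⟩ | ⟨q', rfl⟩
      · exact hV _ ⟨b, rfl⟩
      · by_cases hq : algebraMap B E (y q') = 0
        · change algebraMap B E (y q') / _ ∈ V
          rw [hq, zero_div]
          exact V.zero_mem
        · change algebraMap B E (y q') / algebraMap B E (y t.1) ∈ V
          rw [← V.valuation_le_one_iff, map_div₀]
          exact (div_le_one₀ (zero_lt_iff.2 h0)).2 (ht ⟨q', hq⟩)
    | algebraMap r => exact hV _ (Subalgebra.algebraMap_mem _ r)
    | add x z hx' hz' hx hz => exact V.add_mem _ _ (hx hx') (hz hz')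
    | mul x z hx' hz' hx hz => exact V.mul_mem _ _ (hx hx') (hz hz')

end blowup

section tor

variable {k B : Type u} [Field k] [CommRing B] [IsDomain B] [Algebra k B]

/-- Smooth modifications of `Spec B × 𝔸 ^ n` on which finitely many monomials are comparable. -/
theorem exists_tor [Algebra.FiniteType k B]
    (hE : Pool.Agent.W418.LCI.HasLM k (FractionRing B)) (n : ℕ) {ι : Type} [Fintype ι]
    (b : ι → B) (hb : ∀ i, b i ≠ 0) (α : ι → Fin n → ℕ) :
    ∃ (T I : Type) (_ : Finite T) (_ : Fintype I)
      (M : LM (IsScalarTower.toAlgHom k (MvPolynomial (Fin n) B)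
        (FractionRing (MvPolynomial (Fin n) B))).range (IsScalarTower.toAlgHom k
          (MvPolynomial (Fin n) B) (FractionRing (MvPolynomial (Fin n) B))).range T I),
      ∀ t i j, algebraMap _ (FractionRing (MvPolynomial (Fin n) B))
        (C (b i) * ∏ s, X s ^ α i s) / algebraMap _ (FractionRing (MvPolynomial (Fin n) B))
        (C (b j) * ∏ s, X s ^ α j s) ∈ M.A t ∨
        algebraMap _ (FractionRing (MvPolynomial (Fin n) B))
        (C (b j) * ∏ s, X s ^ α j s) / algebraMap _ (FractionRing (MvPolynomial (Fin n) B))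
        (C (b i) * ∏ s, X s ^ α i s) ∈ M.A t := by
  classical
  set K := FractionRing (MvPolynomial (Fin n) B) with hK
  let E0 := FractionRing B
  let ψ : MvPolynomial (Fin n) B →ₐ[k] K := IsScalarTower.toAlgHom k (MvPolynomial (Fin n) B) K
  have hψ : Function.Injective ψ := IsFractionRing.injective (MvPolynomial (Fin n) B) K
  have hinj : Function.Injective (ψ.toRingHom.comp (C : B →+* MvPolynomial (Fin n) B)) :=
    hψ.comp (C_injective _ _)
  let aE : Algebra E0 K := (IsFractionRing.lift (K := E0) hinj).toAlgebra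
  have hE0 : ∀ b : B, algebraMap E0 K (algebraMap B E0 b) = ψ (C b) :=
    fun b => IsFractionRing.lift_algebraMap hinj b
  have tE : IsScalarTower k E0 K := by
    refine IsScalarTower.of_algebraMap_eq fun c => ?_
    rw [IsScalarTower.algebraMap_apply k B E0, hE0]
    have : (C (algebraMap k B c) : MvPolynomial (Fin n) B) =
      algebraMap k (MvPolynomial (Fin n) B) c := rfl
    rw [this, AlgHom.commutes]
  have hz : AlgebraicIndependent E0 (fun s => ψ (X s)) := by
    have hBK : ∀ b : B, algebraMap B K b = ψ (C b) := fun b =>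
      IsScalarTower.algebraMap_apply B (MvPolynomial (Fin n) B) K b
    have tB : IsScalarTower B E0 K :=
      IsScalarTower.of_algebraMap_eq fun b => (hBK b).trans (hE0 b).symm
    have h1 : AlgebraicIndependent B (fun s => ψ (X s)) := by
      rw [algebraicIndependent_iff]
      intro P hP
      apply hψ
      rw [map_zero, ← hP]
      have : ∀ P, ψ P = aeval (fun s => ψ (X s)) P := by
        intro P
        induction P using MvPolynomial.induction_on with
        | C b => rw [aeval_C]; exact (hBK b).symm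
        | add a b ha hb => rw [map_add, map_add, ha, hb]
        | mul_X a s ha => rw [map_mul, map_mul, ha, aeval_X]
      exact this P
    have h2 : Algebra.IsAlgebraic B E0 :=
      (IsFractionRing.comap_isAlgebraic_iff (A := B) (K := E0) (C := E0)).2 inferInstance
    exact h1.extendScalars E0
  -- the generators of the ring `B`
  obtain ⟨Gn, hGn⟩ := (Algebra.FiniteType.out (R := k) (A := B))
  let W : Finset B := Gn.filter (fun x => x ≠ 0)
  let gn : Fin W.card → B := fun i => (W.equivFin.symm i).1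
  have hgnW : ∀ i, gn i ∈ W := fun i => (W.equivFin.symm i).2
  have hgn : ∀ x ∈ W, ∃ i, gn i = x := fun x hx => ⟨W.equivFin ⟨x, hx⟩, by
    change (W.equivFin.symm (W.equivFin ⟨x, hx⟩)).1 = x
    rw [Equiv.symm_apply_apply]⟩
  have hgn0 : ∀ i, gn i ≠ 0 := fun i => (Finset.mem_filter.1 (hgnW i)).2
  let H : Type := Fin W.card ⊕ ι
  let h : H → E0 := fun x => algebraMap B E0 (Sum.elim gn b x)
  have hh : ∀ x, h x ≠ 0 := by
    intro x
    refine (FaithfulSMul.algebraMap_eq_zero_iff B E0).not.2 ?_
    rcases x with a | i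
    · exact hgn0 a
    · exact hb i
  obtain ⟨T0, I0, i1, i2, M0, Γ0, hFn0, -⟩ := hE H h hh
  obtain ⟨T1, I1, i3, i4, M1, Γ1, hFn1⟩ :=
    all_tor k E0 K T0 I0 H M0 h Γ0 hFn0 n (fun s => ψ (X s)) hz
  let ι2 : Type := Fin W.card ⊕ (Fin n ⊕ ι)
  let e : ι2 → (H ⊕ Fin n) → ℤ := fun x y =>
    Sum.elim (fun a => if y = Sum.inl (Sum.inl a) then 1 else 0)
      (Sum.elim (fun s => if y = Sum.inr s then 1 else 0)
        (fun i => Sum.elim (fun z => if z = Sum.inr i then 1 else 0) (fun s => (α i s : ℤ)) y)) x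
  have hFn2 := fn_mono hFn1 e
  let g2 : ι2 → K := Sum.elim (fun a => ψ (C (gn a)))
    (Sum.elim (fun s => ψ (X s)) (fun i => ψ (C (b i) * ∏ s, X s ^ α i s)))
  have hg2 : (fun i => ∏ y : H ⊕ Fin n, (Sum.elim (fun b => algebraMap E0 K (h b))
      (fun s => ψ (X s))) y ^ e i y) = g2 := by
    funext x
    rcases x with a | s | i
    · rw [Finset.prod_eq_single (Sum.inl (Sum.inl a))]
      · change (algebraMap E0 K (h (Sum.inl a))) ^ (if _ then (1 : ℤ) else 0) = _
        rw [if_pos rfl, zpow_one]
        exact hE0 _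
      · intro y _ hy
        change _ ^ (if y = Sum.inl (Sum.inl a) then (1 : ℤ) else 0) = _
        rw [if_neg hy, zpow_zero]
      · intro h; exact absurd (Finset.mem_univ _) h
    · rw [Finset.prod_eq_single (Sum.inr s)]
      · change (ψ (X s)) ^ (if _ then (1 : ℤ) else 0) = _
        rw [if_pos rfl, zpow_one]
        rfl
      · intro y _ hy
        change _ ^ (if y = Sum.inr s then (1 : ℤ) else 0) = _
        rw [if_neg hy, zpow_zero]
      · intro h; exact absurd (Finset.mem_univ _) h
    · rw [Fintype.prod_sum_type]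
      have e1 : ∏ z : H, (Sum.elim (fun b => algebraMap E0 K (h b)) (fun s => ψ (X s))
          (Sum.inl z)) ^ e (Sum.inr (Sum.inr i)) (Sum.inl z) = ψ (C (b i)) := by
        rw [Finset.prod_eq_single (Sum.inr i)]
        · change (algebraMap E0 K (h (Sum.inr i))) ^ (if _ then (1 : ℤ) else 0) = _
          rw [if_pos rfl, zpow_one]
          exact hE0 _
        · intro y _ hy
          change _ ^ (if y = Sum.inr i then (1 : ℤ) else 0) = _
          rw [if_neg hy, zpow_zero]
        · intro h; exact absurd (Finset.mem_univ _) h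
      have e2 : ∏ s : Fin n, (Sum.elim (fun b => algebraMap E0 K (h b)) (fun s => ψ (X s))
          (Sum.inr s)) ^ e (Sum.inr (Sum.inr i)) (Sum.inr s) = ψ (∏ s, X s ^ α i s) := by
        rw [map_prod]
        refine Finset.prod_congr rfl fun s _ => ?_
        change (ψ (X s)) ^ ((α i s : ℕ) : ℤ) = _
        rw [zpow_natCast, map_pow]
      rw [e1, e2, ← map_mul]
      rfl
  rw [hg2] at hFn2
  have hR : ψ.range = Algebra.adjoin k (g2 '' {x | ∀ i, x ≠ Sum.inr (Sum.inr i)}) := by
    apply le_antisymm
    · set Q := Algebra.adjoin k (g2 '' {x | ∀ i, x ≠ Sum.inr (Sum.inr i)}) with hQ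
      have hC : ∀ b, ψ (C b) ∈ Q := by
        intro b
        have h1 : Algebra.adjoin k (Gn : Set B) ≤ Q.comap (ψ.comp
            (IsScalarTower.toAlgHom k B (MvPolynomial (Fin n) B))) := by
          rw [Algebra.adjoin_le_iff]
          intro x hx
          change ψ (C x) ∈ Q
          by_cases hx0 : x = 0
          · rw [hx0, C_0, map_zero]; exact Q.zero_mem
          · obtain ⟨a, ha⟩ := hgn x (Finset.mem_filter.2 ⟨hx, hx0⟩)
            apply Algebra.subset_adjoin
            refine ⟨Sum.inl a, fun i h => by simp at h, ?_⟩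
            rw [← ha]
            rfl
        have h2 : b ∈ Algebra.adjoin k (Gn : Set B) := by rw [hGn]; exact Algebra.mem_top
        exact h1 h2
      have hX : ∀ s, ψ (X s) ∈ Q := by
        intro s
        apply Algebra.subset_adjoin
        exact ⟨Sum.inr (Sum.inl s), fun i h => absurd (Sum.inr.inj h) Sum.inl_ne_inr, rfl⟩
      rintro _ ⟨a, rfl⟩
      change ψ a ∈ Q
      induction a using MvPolynomial.induction_on with
      | C b => exact hC b
      | add a b ha hb => rw [map_add]; exact Q.add_mem ha hb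
      | mul_X a s ha => rw [map_mul]; exact Q.mul_mem ha (hX s)
    · rw [Algebra.adjoin_le_iff]
      rintro _ ⟨x, hx, rfl⟩
      rcases x with a | s | i
      · exact ⟨_, rfl⟩
      · exact ⟨_, rfl⟩
      · exact ⟨_, rfl⟩
  have hfr : ∀ x : K, ∃ a ∈ ψ.range, ∃ b ∈ ψ.range, b ≠ 0 ∧ x = a * b⁻¹ := by
    intro x
    obtain ⟨a, b, hb, rfl⟩ := IsFractionRing.div_surjective (A := MvPolynomial (Fin n) B) x
    refine ⟨_, ⟨a, rfl⟩, _, ⟨b, rfl⟩, ?_, ?_⟩
    · exact (FaithfulSMul.algebraMap_eq_zero_iff _ K).not.2 (nonZeroDivisors.ne_zero hb)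
    · rw [div_eq_mul_inv]
      rfl
  obtain ⟨T', I', j1, j2, M', Γ', hFn', -⟩ :=
    all_restr k K T1 I1 ι2 M1 g2 _ hFn2 {x | ∀ i, x ≠ Sum.inr (Sum.inr i)} ψ.range hR hfr
  obtain ⟨T'', I'', l1, l2, l3, M'', Γ'', hE'', hC⟩ := princ_all g2 M' Γ'
  refine ⟨T'', I'', l1, l2, M'', fun t i j => ?_⟩
  have hF := hE''.fn hFn'
  rcases hC (Sum.inr (Sum.inr i)) (Sum.inr (Sum.inr j)) t with h3 | h3
  · right
    exact div_mem_of_le M'' t g2 Γ'' hF h3
  · left
    exact div_mem_of_le M'' t g2 Γ'' hF h3

end tor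

/-- The trivial model of the base field. -/
theorem hasLM_of_surjective {k E : Type u} [Field k] [Field E] [Algebra k E]
    (h : Function.Surjective (algebraMap k E)) : Pool.Agent.W418.LCI.HasLM k E := by
  intro H _ g hg
  have hbot : (⊥ : Subalgebra k E) = ⊤ := by
    rw [eq_top_iff]
    intro x _
    obtain ⟨c, rfl⟩ := h x
    exact Subalgebra.algebraMap_mem _ c
  have hsm : Algebra.Smooth k (⊤ : Subalgebra k E) := by
    have e : k ≃ₐ[k] (⊤ : Subalgebra k E) :=
      (AlgEquiv.ofBijective (Algebra.ofId k E) ⟨(algebraMap k E).injective, h⟩).trans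
        Subalgebra.topEquiv.symm
    exact Algebra.Smooth.of_equiv e
  let M : LM (⊥ : Subalgebra k E) ⊤ Unit (Fin 0) :=
    { A := fun _ => ⊤
      H := fun _ => 1
      x := fun _ i => i.elim0
      sm := fun _ => hsm
      base := fun _ => le_top
      H0 := fun _ => one_ne_zero
      HR := fun _ => Algebra.mem_top
      rt := fun _ _ => Algebra.mem_top
      gl := fun _ _ _ _ => ⟨0, Algebra.mem_top⟩
      dn := fun _ _ _ => ⟨0, Algebra.mem_top⟩
      cv := fun V hV => ⟨(), fun f _ => hV f (by rw [hbot]; exact Algebra.mem_top)⟩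
      xA := fun _ i => i.elim0
      x0 := fun _ i => i.elim0
      gi := fun _ _ i => i.elim0
      snc := fun _ _ _ _ _ i => i.elim0 }
  refine ⟨Unit, Fin 0, inferInstance, inferInstance, M, fun _ i => i.elim0, ?_, ?_⟩
  · intro a t
    refine ⟨g a, hg a, Algebra.mem_top, Algebra.mem_top, ?_⟩
    rw [Finset.prod_eq_one (fun i _ => i.elim0), mul_one]
  · intro t x
    exact ⟨x, Algebra.mem_top, 1, Algebra.mem_top, one_ne_zero, by rw [inv_one, mul_one]⟩

end Pool.Agent.V11261.AK
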