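import Pool.Agent.V11261.TQ.Step
import Pool.Agent.W558.S.Stms
import Pool.Agent.W558.Var

set_option autoImplicit false
set_option linter.unusedVariables false
set_option linter.unusedSectionVars false

open MvPolynomial AlgebraicGeometry CategoryTheory Pool.Agent.H920R2 Pool.Agent.W558

universe u v

namespace Pool.Agent.V11261.AK

open Pool.Agent.V11261.TQ (cf mem_cf C_mem_cf X_mem_cf aeval_mem_cf)

/-- Subalgebras of the polynomial rings over a domain and its field of fractions. -/
structure Data {k B E : Type u} [Field k] [CommRing B] [Algebra k B] [Field E] [Algebra k E]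
    [Algebra B E] {σ : Type} (AB : Subalgebra k (MvPolynomial σ B))
    (AE : Subalgebra k (MvPolynomial σ E)) : Prop where
  iff : ∀ f, MvPolynomial.map (algebraMap B E) f ∈ AE ↔ f ∈ AB
  const : ∀ a : E, (C a : MvPolynomial σ E) ∈ AE
  int : ∀ j : σ, ∃ P : Polynomial B, P.Monic ∧ 0 < P.natDegree ∧
    Polynomial.aeval (X j : MvPolynomial σ B) P ∈ AB

variable {k B E : Type u} [Field k] [CommRing B] [IsDomain B] [Algebra k B] [Field E]
  [Algebra k E] [Algebra B E] [IsScalarTower k B E] [IsFractionRing B E] {σ : Type}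
  {AB : Subalgebra k (MvPolynomial σ B)} {AE : Subalgebra k (MvPolynomial σ E)}

lemma Data.C_mem (h : Data AB AE) (b : B) : (C b : MvPolynomial σ B) ∈ AB := by
  rw [← h.iff, map_C]
  exact h.const _

/-- The atlas of the quotient. -/
theorem Data.hasResolution [Finite σ] (h : Data AB AE) {T I : Type} [Finite T]
    (M : LM (IsScalarTower.toAlgHom k B E).range (IsScalarTower.toAlgHom k B E).range T I)
    (hM : ∀ t, ∃ φ : MvPolynomial σ E →ₐ[E] MvPolynomial σ E, Function.Injective φ ∧
        ∀ f, (f ∈ cf σ (M.A t) ∧ f ∈ AE) ↔ ∃ g ∈ cf σ (M.A t), f = φ g) :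
    HasResolution (X := Spec (CommRingCat.of AB))
      (Spec.map (CommRingCat.ofHom (algebraMap k AB))) := by
  classical
  let ψ : B →ₐ[k] E := IsScalarTower.toAlgHom k B E
  have hψ : Function.Injective ψ := IsFractionRing.injective B E
  let K := FractionRing (MvPolynomial σ E)
  let ι : MvPolynomial σ E →ₐ[k] K := IsScalarTower.toAlgHom k (MvPolynomial σ E) K
  have hι : Function.Injective ι := IsFractionRing.injective (MvPolynomial σ E) K
  let mE : MvPolynomial σ B →ₐ[k] MvPolynomial σ E := MvPolynomial.mapAlgHom ψ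
  have hmE : Function.Injective mE := MvPolynomial.map_injective _ hψ
  have hmc : ∀ f d, coeff d (mE f) = ψ (coeff d f) := fun f d => coeff_map _ _ _
  let g : AB →ₐ[k] K := ι.comp (mE.comp AB.val)
  have hg : Function.Injective g := hι.comp (hmE.comp Subtype.val_injective)
  let c : E →+* K := (ι : MvPolynomial σ E →+* K).comp C
  have hc : Function.Injective c := hι.comp (C_injective σ E)
  let D : T → Subalgebra k K := fun t => (cf σ (M.A t) ⊓ AE).map ι
  have hD : ∀ t f, f ∈ cf σ (M.A t) → f ∈ AE → ι f ∈ D t := by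
    intro t f h1 h2
    exact ⟨f, ⟨h1, h2⟩, rfl⟩
  have hconst : ∀ (a : E) (f : MvPolynomial σ E), f ∈ AE → C a * f ∈ AE := by
    intro a f h'
    exact AE.mul_mem (h.const a) h'
  refine hasResolution_of_atl g hg (C := D) (H := fun t => c (M.H t))
    { sm := fun t => ?_
      aa := fun t a => ?_
      H0 := fun t => (map_ne_zero_iff c hc).2 (M.H0 t)
      hA := fun t => ?_
      rt := fun t t' => ?_
      gl := fun t t' x hx => ?_
      dn := fun t x hx => ?_
      cv := fun V hV => ?_ }
  · -- smoothness
    obtain ⟨φ, hφ, hφ'⟩ := hM t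
    have hsm := M.sm t
    have h0 : Algebra.Smooth (M.A t) (MvPolynomial σ (M.A t)) := ⟨inferInstance, inferInstance⟩
    have h1 : Algebra.Smooth k (MvPolynomial σ (M.A t)) :=
      Algebra.Smooth.comp k (M.A t) (MvPolynomial σ (M.A t))
    let Φ : MvPolynomial σ (M.A t) →ₐ[k] K :=
      ι.comp ((φ.restrictScalars k).comp (MvPolynomial.mapAlgHom (M.A t).val))
    have hΦ : Function.Injective Φ :=
      hι.comp (hφ.comp (MvPolynomial.map_injective _ Subtype.val_injective))
    have h2 : Φ.range = D t := by
      apply le_antisymm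
      · rintro _ ⟨f, rfl⟩
        have h3 := (hφ' (φ (MvPolynomial.mapAlgHom (M.A t).val f))).2 ⟨_, ⟨f, rfl⟩, rfl⟩
        exact hD t _ h3.1 h3.2
      · rintro _ ⟨f, ⟨h3, h4⟩, rfl⟩
        obtain ⟨g', ⟨g'', rfl⟩, hg'⟩ := (hφ' f).1 ⟨h3, h4⟩
        exact ⟨g'', by rw [hg']; rfl⟩
    rw [← h2]
    exact Algebra.Smooth.of_equiv (A := MvPolynomial σ (M.A t)) (B := Φ.range)
      (AlgEquiv.ofInjective Φ hΦ)
  · -- the ring of invariants is contained in the charts
    refine hD t _ (mem_cf.2 fun d => ?_) ((h.iff _).2 a.2)
    change coeff d (mE a.1) ∈ M.A t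
    rw [hmc]
    exact M.base t ⟨_, rfl⟩
  · obtain ⟨b, hb⟩ := M.HR t
    refine ⟨⟨C b, h.C_mem b⟩, ?_⟩
    change c (M.H t) = ι (mE (C b))
    have : mE (C b) = C (ψ b) := map_C _ _
    rw [this, ← hb]
    rfl
  · change c (M.H t') / c (M.H t) ∈ D t
    rw [← map_div₀]
    exact hD t _ (C_mem_cf (M.rt t t')) (h.const _)
  · obtain ⟨f, ⟨h1, h2⟩, rfl⟩ := hx
    have h1' := mem_cf.1 h1
    choose n hn using fun d => M.gl t t' _ (h1' d)
    refine ⟨f.support.sup n, ?_⟩
    change (c (M.H t') / c (M.H t)) ^ _ * ι f ∈ D t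
    have h3 : (c (M.H t') / c (M.H t)) ^ (f.support.sup n) * ι f =
        ι (C ((M.H t' / M.H t) ^ (f.support.sup n)) * f) := by
      rw [map_mul, ← map_div₀, ← map_pow]
      rfl
    rw [h3]
    refine hD t _ (mem_cf.2 fun d => ?_) (hconst _ _ h2)
    rw [coeff_C_mul]
    by_cases hd : d ∈ f.support
    · exact M.gl_mono (Finset.le_sup hd) (hn d)
    · rw [notMem_support_iff.1 hd, mul_zero]
      exact (M.A t).zero_mem
  · obtain ⟨f, ⟨h1, h2⟩, rfl⟩ := hx
    have h1' := mem_cf.1 h1
    choose n hn using fun d => M.dn t _ (h1' d)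
    have h4 : C (M.H t ^ (f.support.sup n)) * f ∈ cf σ (ψ.range) := by
      refine mem_cf.2 fun d => ?_
      rw [coeff_C_mul]
      by_cases hd : d ∈ f.support
      · exact M.dn_mono (Finset.le_sup hd) (hn d)
      · rw [notMem_support_iff.1 hd, mul_zero]
        exact Subalgebra.zero_mem _
    obtain ⟨f', hf'⟩ : ∃ f' : MvPolynomial σ B, mE f' = C (M.H t ^ (f.support.sup n)) * f := by
      have h5 : ∀ d, ∃ b, ψ b = coeff d (C (M.H t ^ (f.support.sup n)) * f) :=
        fun d => mem_cf.1 h4 d
      choose b hb using h5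
      have h6 := MvPolynomial.as_sum (C (M.H t ^ (f.support.sup n)) * f : MvPolynomial σ E)
      refine ⟨∑ d ∈ (C (M.H t ^ (f.support.sup n)) * f : MvPolynomial σ E).support,
        monomial d (b d), ?_⟩
      refine Eq.trans ?_ h6.symm
      rw [map_sum]
      refine Finset.sum_congr rfl fun d _ => ?_
      rw [← hb d]
      exact map_monomial _ _ _
    have h7 : f' ∈ AB := by
      rw [← h.iff]
      have h8 : MvPolynomial.map (algebraMap B E) f' = C (M.H t ^ (f.support.sup n)) * f := hf'
      rw [h8]
      exact hconst _ _ h2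
    refine ⟨f.support.sup n, ⟨f', h7⟩, ?_⟩
    change c (M.H t) ^ _ * ι f = ι (mE f')
    rw [hf', map_mul, ← map_pow]
    rfl
  · -- valuations
    let V' : ValuationSubring E := V.comap c
    have hV' : ∀ x, x ∈ V' ↔ c x ∈ V := fun x => Iff.rfl
    obtain ⟨t, ht⟩ := M.cv V' (by
      rintro _ ⟨b, rfl⟩
      rw [hV']
      have h1 := hV ⟨C b, h.C_mem b⟩
      have h2 : g ⟨C b, h.C_mem b⟩ = c (ψ b) := by
        change ι (mE (C b)) = _
        have : mE (C b) = C (ψ b) := map_C _ _
        rw [this]
        rfl
      rw [h2] at h1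
      exact h1)
    refine ⟨t, ?_⟩
    have hX : ∀ j, ι (X j) ∈ V := by
      intro j
      obtain ⟨P, h2, h3, h4⟩ := h.int j
      let y : AB := ⟨Polynomial.aeval (X j : MvPolynomial σ B) P, h4⟩
      have hy : g y ∈ V := hV y
      have hb : ∀ b : B, c (ψ b) ∈ V := fun b => ht _ (M.base t ⟨b, rfl⟩)
      let cV : B →+* V :=
        { toFun := fun a => ⟨c (ψ a), hb a⟩
          map_one' := Subtype.ext (by simp)
          map_mul' := fun a b => Subtype.ext (by simp)
          map_zero' := Subtype.ext (by simp)
          map_add' := fun a b => Subtype.ext (by simp) }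
      have hint : IsIntegral V (ι (X j)) := by
        refine ⟨P.map cV - Polynomial.C ⟨g y, hy⟩, ?_, ?_⟩
        · refine Polynomial.Monic.sub_of_left (h2.map cV) ?_
          rw [Polynomial.degree_eq_natDegree (h2.map cV).ne_zero, h2.natDegree_map]
          refine lt_of_le_of_lt Polynomial.degree_C_le ?_
          exact_mod_cast h3
        · rw [Polynomial.eval₂_sub, Polynomial.eval₂_C, Polynomial.eval₂_map]
          have h5 : (algebraMap V K).comp cV = (c.comp (ψ : B →+* E)) := rfl
          rw [h5]
          have h6 : g y = Polynomial.eval₂ (c.comp (ψ : B →+* E)) (ι (X j)) P := by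
            change ι (mE (Polynomial.aeval (X j : MvPolynomial σ B) P)) = _
            rw [Polynomial.aeval_def]
            have h7 := Polynomial.hom_eval₂ P (algebraMap B (MvPolynomial σ B))
              ((ι : MvPolynomial σ E →+* K).comp (mE : MvPolynomial σ B →+* MvPolynomial σ E))
              (X j)
            have h8 : ((ι : MvPolynomial σ E →+* K).comp
                (mE : MvPolynomial σ B →+* MvPolynomial σ E)).comp
                (algebraMap B (MvPolynomial σ B)) = c.comp (ψ : B →+* E) := by
              ext b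
              change ι (mE (C b)) = ι (C (ψ b))
              have : mE (C b) = C (ψ b) := map_C _ _
              rw [this]
            have h9 : ((ι : MvPolynomial σ E →+* K).comp
                (mE : MvPolynomial σ B →+* MvPolynomial σ E)) (X j) = ι (X j) := by
              change ι (mE (X j)) = _
              have : mE (X j) = X j := map_X _ _
              rw [this]
            rw [h8, h9] at h7
            exact h7
          change _ - g y = 0
          rw [h6, sub_self]
      obtain ⟨z, hz⟩ := IsIntegrallyClosed.isIntegral_iff.1 hint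
      rw [← hz]
      exact z.2
    rintro _ ⟨f, ⟨h1, -⟩, rfl⟩
    have h1' := mem_cf.1 h1
    change ι f ∈ V
    rw [f.as_sum, map_sum]
    refine sum_mem fun d _ => ?_
    rw [monomial_eq, map_mul, Finsupp.prod, map_prod]
    refine mul_mem ?_ (prod_mem fun i _ => ?_)
    · exact ht _ (h1' d)
    · rw [map_pow]
      exact pow_mem (hX i) _

/-- The ring of invariants is of finite type. -/
theorem Data.finiteType [Finite σ] [Algebra.FiniteType k B] (h : Data AB AE) :
    Algebra.FiniteType k AB := by
  have h0 : Algebra.FiniteType k (MvPolynomial σ B) := by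
    have : Algebra.FiniteType B (MvPolynomial σ B) := inferInstance
    exact Algebra.FiniteType.trans (S := B) inferInstance inferInstance
  have h1 : Algebra.IsIntegral AB (MvPolynomial σ B) := by
    refine ⟨fun f => ?_⟩
    induction f using MvPolynomial.induction_on with
    | C a =>
      exact isIntegral_algebraMap (R := AB) (A := MvPolynomial σ B) (x := ⟨C a, h.C_mem a⟩)
    | add f g hf hg => exact hf.add hg
    | mul_X f j hf =>
      refine hf.mul ?_
      obtain ⟨P, h2, h3, h4⟩ := h.int j
      let y : AB := ⟨Polynomial.aeval (X j : MvPolynomial σ B) P, h4⟩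
      let c : B →+* AB :=
        { toFun := fun a => ⟨C a, h.C_mem a⟩
          map_one' := Subtype.ext C_1
          map_mul' := fun a b => Subtype.ext C_mul
          map_zero' := Subtype.ext C_0
          map_add' := fun a b => Subtype.ext C_add }
      refine ⟨P.map c - Polynomial.C y, ?_, ?_⟩
      · refine Polynomial.Monic.sub_of_left (h2.map c) ?_
        rw [Polynomial.degree_eq_natDegree (h2.map c).ne_zero, h2.natDegree_map]
        refine lt_of_le_of_lt Polynomial.degree_C_le ?_
        exact_mod_cast h3
      · rw [Polynomial.eval₂_sub, Polynomial.eval₂_C, Polynomial.eval₂_map]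
        have h5 : (algebraMap AB (MvPolynomial σ B)).comp c =
            algebraMap B (MvPolynomial σ B) := rfl
        rw [h5]
        change Polynomial.aeval (X j : MvPolynomial σ B) P - Polynomial.aeval _ P = 0
        exact sub_self _
  have h2 : Algebra.FiniteType AB (MvPolynomial σ B) :=
    Algebra.FiniteType.of_restrictScalars_finiteType k AB (MvPolynomial σ B)
  have h3 : Module.Finite AB (MvPolynomial σ B) := Algebra.IsIntegral.finite
  refine ⟨fg_of_fg_of_fg k AB (MvPolynomial σ B) h0.out h3.1 ?_⟩
  exact Subtype.val_injective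

end Pool.Agent.V11261.AK
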