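import Pool.Agent.V11261.AK.One
import Pool.Agent.V11261.AK.Gen

set_option autoImplicit false
set_option linter.unusedVariables false
set_option linter.unusedSectionVars false

open MvPolynomial

universe u v

namespace Pool.Agent.V11261.AK

open Pool.Agent.V11261.TQ (tr tr_X tr_C tr_zero cf mem_cf C_mem_cf X_mem_cf aeval_mem_cf)

section chart

variable {k E : Type u} [Field k] [Field E] [Algebra k E] {σ : Type v} [DecidableEq σ]

/-- The rings of invariants over charts are polynomial rings. -/
theorem chart {C' : Subalgebra k E} : ∀ L : List ((σ → E) × Polynomial E),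
    L.Pairwise (fun o1 o2 => ∀ j, o1.1 j = 0 ∨ o2.1 j = 0) →
    (∀ o ∈ L, (∀ j, o.1 j ∈ C') ∧ (∀ i, o.2.coeff i ∈ C') ∧ o.2.Monic ∧ 0 < o.2.natDegree ∧
      Addv σ o.2 ∧ (o.1 = 0 ∨ ∃ e, o.1 e ≠ 0 ∧ ∀ j, o.1 j / o.1 e ∈ C')) →
    ∃ φ : MvPolynomial σ E →ₐ[E] MvPolynomial σ E, Function.Injective φ ∧
      ∀ f, (f ∈ cf σ C' ∧ ∀ o ∈ L, Inv o.1 o.2 f) ↔ ∃ g ∈ cf σ C', f = φ g := by
  intro L
  induction L with
  | nil =>
    intro _ _
    refine ⟨AlgHom.id E _, Function.injective_id, fun f => ?_⟩
    simp
  | cons o L' ih =>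
    intro hP hO
    rw [List.pairwise_cons] at hP
    obtain ⟨h1, h2, h3, h4, h5, h6⟩ := hO o List.mem_cons_self
    obtain ⟨φ, hφ, hφ'⟩ := ih hP.2 fun o' ho' => hO o' (List.mem_cons_of_mem _ ho')
    rcases h6 with h6 | ⟨e, he0, he⟩
    · refine ⟨φ, hφ, fun f => ?_⟩
      rw [← hφ' f]
      constructor
      · rintro ⟨g1, g2⟩
        exact ⟨g1, fun o' ho' => g2 o' (List.mem_cons_of_mem _ ho')⟩
      · rintro ⟨g1, g2⟩
        refine ⟨g1, fun o' ho' => ?_⟩
        rcases List.mem_cons.1 ho' with rfl | ho'
        · rw [h6]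
          exact inv_zero _ _
        · exact g2 o' ho'
    · let u : σ → E := fun j => o.1 j / o.1 e
      have hue : u e = 1 := div_self he0
      have hwu : (fun j => o.1 e * u j) = o.1 := by
        funext j
        change o.1 e * (o.1 j / o.1 e) = _
        field_simp
      set Λ' := o.2.scaleRoots (o.1 e) with hΛ'
      have hLN : 0 < Λ'.natDegree := by rwa [hΛ', Polynomial.natDegree_scaleRoots]
      have hLC : ∀ i, Λ'.coeff i ∈ C' := by
        intro i
        rw [hΛ', Polynomial.coeff_scaleRoots]
        exact C'.mul_mem (h2 i) (C'.pow_mem (h1 e) _)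
      have hinj := psi_injective e u hLN
      have htr : ∀ o' ∈ L', ∀ g, Inv o'.1 o'.2 (psi e u Λ' g) ↔ Inv o'.1 o'.2 g := by
        intro o' ho' g
        obtain ⟨-, -, g3, -, -, -⟩ := hO o' (List.mem_cons_of_mem _ ho')
        have hoe : o'.1 e = 0 := (hP.1 o' ho' e).resolve_left he0
        refine inv_transport hinj g3 (fun j => ?_) g
        by_cases hj : j = e
        · subst hj
          have h7 : tr o'.1 (Polynomial.aeval (X j) Λ') =
              Polynomial.aeval (tr o'.1 (X j)) Λ' := (Polynomial.aeval_algHom_apply _ _ _).symm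
          rw [psi_e, h7, tr_X, hoe, C_0, Polynomial.C_0, mul_zero, add_zero, add_zero, C_aeval,
            sub_self]
          exact dvd_zero _
        · rw [psi_ne _ _ _ hj, map_sub, map_mul, tr_X, tr_X, tr_C, hoe, C_0, Polynomial.C_0,
            mul_zero, add_zero, map_sub, map_mul]
          refine ⟨0, ?_⟩
          ring
      refine ⟨(psi e u Λ').comp φ, hinj.comp hφ, fun f => ?_⟩
      constructor
      · rintro ⟨g1, g2⟩
        have g3 : Inv (fun j => o.1 e * u j) o.2 f := by
          rw [hwu]
          exact g2 o List.mem_cons_self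
        obtain ⟨g, hg, hfg⟩ := mem_of_inv (C' := C') e he hue (h1 e) he0 h2 h3 h4 h5
          (f.totalDegree + 1) f g1 (Nat.lt_succ_self _) g3
        obtain ⟨g', hg', hgg'⟩ := (hφ' g).1 ⟨hg, by
          intro o' ho'
          rw [← htr o' ho', ← hfg]
          exact g2 o' (List.mem_cons_of_mem _ ho')⟩
        refine ⟨g', hg', ?_⟩
        rw [AlgHom.comp_apply, ← hgg', hfg]
      · rintro ⟨g', hg', rfl⟩
        obtain ⟨g1, g2⟩ := (hφ' (φ g')).2 ⟨g', hg', rfl⟩
        refine ⟨?_, fun o' ho' => ?_⟩
        · rw [AlgHom.comp_apply]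
          refine aeval_mem_cf (fun j => ?_) g1
          split_ifs
          · rw [Polynomial.aeval_eq_sum_range]
            refine Subalgebra.sum_mem _ fun i _ => ?_
            rw [smul_eq_C_mul]
            exact Subalgebra.mul_mem _ (C_mem_cf (hLC i)) (Subalgebra.pow_mem _ (X_mem_cf C' e) _)
          · exact Subalgebra.sub_mem _ (X_mem_cf C' j)
              (Subalgebra.mul_mem _ (C_mem_cf (he j)) (X_mem_cf C' e))
        · rcases List.mem_cons.1 ho' with rfl | ho'
          · have g3 := inv_psi e hue (c := o'.1 e) he0 h3 h4 h5 (φ g')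
            rw [hwu] at g3
            exact g3
          · rw [AlgHom.comp_apply, htr o' ho']
            exact g2 _ ho'

end chart

section alg

/-- The ring of invariants. -/
noncomputable def ring (k : Type u) {R : Type u} [CommRing k] [CommRing R] [Algebra k R]
    {σ : Type v} (L : List ((σ → R) × Polynomial R)) : Subalgebra k (MvPolynomial σ R) where
  carrier := {f | ∀ o ∈ L, Inv o.1 o.2 f}
  mul_mem' := by
    intro f g hf hg o ho
    have h1 := hf o ho
    have h2 := hg o ho
    unfold Inv at *
    have : tr o.1 (f * g) - Polynomial.C (f * g) = (tr o.1 f - Polynomial.C f) * tr o.1 g +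
        Polynomial.C f * (tr o.1 g - Polynomial.C g) := by
      rw [map_mul, map_mul]; ring
    rw [this]
    exact dvd_add (dvd_mul_of_dvd_left h1 _) (dvd_mul_of_dvd_right h2 _)
  add_mem' := by
    intro f g hf hg o ho
    have h1 := hf o ho
    have h2 := hg o ho
    unfold Inv at *
    have : tr o.1 (f + g) - Polynomial.C (f + g) = (tr o.1 f - Polynomial.C f) +
        (tr o.1 g - Polynomial.C g) := by
      rw [map_add, map_add]; ring
    rw [this]
    exact dvd_add h1 h2
  algebraMap_mem' := by
    intro c o ho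
    unfold Inv
    have h1 : algebraMap k (MvPolynomial σ R) c = C (algebraMap k R c) := rfl
    rw [h1, tr_C, sub_self]
    exact dvd_zero _

lemma mem_ring {k : Type u} {R : Type u} [CommRing k] [CommRing R] [Algebra k R]
    {σ : Type v} (L : List ((σ → R) × Polynomial R)) (f : MvPolynomial σ R) :
    f ∈ ring k L ↔ ∀ o ∈ L, Inv o.1 o.2 f := Iff.rfl

end alg

section data

variable {k B E : Type u} [Field k] [CommRing B] [IsDomain B] [Algebra k B] [Field E]
  [Algebra k E] [Algebra B E] [IsScalarTower k B E] [IsFractionRing B E] {σ : Type}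

/-- Base change of the data. -/
noncomputable def bc (E : Type u) [Field E] [Algebra B E] (o : (σ → B) × Polynomial B) :
    (σ → E) × Polynomial E :=
  (fun j => algebraMap B E (o.1 j), o.2.map (algebraMap B E))

lemma inv_map (w : σ → B) {Λ : Polynomial B} (hΛ : Λ.Monic) (f : MvPolynomial σ B) :
    Inv (fun j => algebraMap B E (w j)) (Λ.map (algebraMap B E))
      (MvPolynomial.map (algebraMap B E) f) ↔ Inv w Λ f := by
  let φ : B →+* E := algebraMap B E
  have hφ : Function.Injective φ := IsFractionRing.injective B E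
  have hm : (Λ.map (C : B →+* MvPolynomial σ B)).Monic := hΛ.map _
  have e1 : (Λ.map (C : B →+* MvPolynomial σ B)).map
      (MvPolynomial.map φ : MvPolynomial σ B →+* MvPolynomial σ E) = (Λ.map φ).map C := by
    rw [Polynomial.map_map, Polynomial.map_map]
    congr 1
    ext a
    simp
  have hm' : ((Λ.map φ).map (C : E →+* MvPolynomial σ E)).Monic := by
    rw [← e1]
    exact hm.map _
  have htr : tr (fun j => φ (w j)) (MvPolynomial.map φ f) =
      (tr w f).map (MvPolynomial.map φ : MvPolynomial σ B →+* MvPolynomial σ E) := by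
    have h : ((tr (fun j => φ (w j)) : MvPolynomial σ E →+* _).comp
        (MvPolynomial.map φ : MvPolynomial σ B →+* MvPolynomial σ E)) =
        (Polynomial.mapRingHom (MvPolynomial.map φ : MvPolynomial σ B →+* MvPolynomial σ E)).comp
          (tr w : MvPolynomial σ B →+* _) := by
      apply MvPolynomial.ringHom_ext
      · intro a
        change tr _ (MvPolynomial.map φ (C a)) = Polynomial.map _ (tr w (C a))
        rw [map_C, tr_C, tr_C, Polynomial.map_C, map_C]
      · intro j
        change tr _ (MvPolynomial.map φ (X j)) = Polynomial.map _ (tr w (X j))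
        rw [map_X, tr_X, tr_X, Polynomial.map_add, Polynomial.map_mul, Polynomial.map_C,
          Polynomial.map_C, Polynomial.map_X, map_X, map_C]
    exact DFunLike.congr_fun h f
  have e2 : tr (fun j => φ (w j)) (MvPolynomial.map φ f) - Polynomial.C (MvPolynomial.map φ f) =
      (tr w f - Polynomial.C f).map
        (MvPolynomial.map φ : MvPolynomial σ B →+* MvPolynomial σ E) := by
    rw [htr, Polynomial.map_sub, Polynomial.map_C]
  change (Λ.map φ).map C ∣ tr (fun j => φ (w j)) (MvPolynomial.map φ f) -
    Polynomial.C (MvPolynomial.map φ f) ↔ Λ.map C ∣ _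
  rw [e2, ← Polynomial.modByMonic_eq_zero_iff_dvd hm, ← Polynomial.modByMonic_eq_zero_iff_dvd hm',
    ← e1, ← Polynomial.map_modByMonic _ hm]
  exact Polynomial.map_eq_zero_iff (MvPolynomial.map_injective φ hφ)

lemma inv_bc (o : (σ → B) × Polynomial B) (hΛ : o.2.Monic) (f : MvPolynomial σ B) :
    Inv (bc E o).1 (bc E o).2 (MvPolynomial.map (algebraMap B E) f) ↔ Inv o.1 o.2 f :=
  inv_map o.1 hΛ f

/-- The data of the ring of invariants. -/
theorem data (L : List ((σ → B) × Polynomial B))
    (hL : L.Pairwise (fun o1 o2 => ∀ j, o1.1 j = 0 ∨ o2.1 j = 0))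
    (hO : ∀ o ∈ L, o.2.Monic ∧ 0 < o.2.natDegree ∧ Addv σ (o.2.map (algebraMap B E))) :
    Data (E := E) (ring k L) (ring k (L.map (bc E))) where
  iff f := by
    rw [mem_ring, mem_ring]
    constructor
    · intro h o ho
      exact (inv_bc (E := E) o (hO o ho).1 f).1 (h (bc E o) (List.mem_map_of_mem ho))
    · intro h o' ho'
      obtain ⟨o, ho, rfl⟩ := List.mem_map.1 ho'
      exact (inv_bc (E := E) o (hO o ho).1 f).2 (h o ho)
  const a := by
    rw [mem_ring]
    intro o ho
    unfold Inv
    rw [tr_C, sub_self]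
    exact dvd_zero _
  int j := by
    classical
    by_cases hj : ∃ o ∈ L, o.1 j ≠ 0
    · obtain ⟨o, ho, hoj⟩ := hj
      obtain ⟨h1, h2, h3⟩ := hO o ho
      refine ⟨o.2.scaleRoots (o.1 j), (Polynomial.monic_scaleRoots_iff _).2 h1,
        by rwa [Polynomial.natDegree_scaleRoots], ?_⟩
      rw [mem_ring]
      intro o' ho'
      rw [← inv_map (E := E) o'.1 (hO o' ho').1]
      set c : E := algebraMap B E (o.1 j) with hc
      have hc0 : c ≠ 0 := (map_ne_zero_iff _ (IsFractionRing.injective B E)).2 hoj
      set Λ : Polynomial E := o.2.map (algebraMap B E) with hΛ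
      have e1 : MvPolynomial.map (algebraMap B E)
          (Polynomial.aeval (X j : MvPolynomial σ B) (o.2.scaleRoots (o.1 j))) =
          Polynomial.aeval (X j : MvPolynomial σ E) (Λ.scaleRoots c) := by
        have e2 : Λ.scaleRoots c = (o.2.scaleRoots (o.1 j)).map (algebraMap B E) := by
          rw [Polynomial.map_scaleRoots]
          rw [h1, map_one]
          exact one_ne_zero
        rw [e2, Polynomial.aeval_def, Polynomial.hom_eval₂, map_X, Polynomial.aeval_def,
          Polynomial.eval₂_map]
        have e4 : (MvPolynomial.map (algebraMap B E) : MvPolynomial σ B →+* MvPolynomial σ E).comp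
            (algebraMap B (MvPolynomial σ B)) =
            (algebraMap E (MvPolynomial σ E)).comp (algebraMap B E) := by
          apply RingHom.ext
          intro b
          exact MvPolynomial.map_C (algebraMap B E) b
        rw [e4]
      rw [e1]
      unfold Inv
      have e3 : tr (fun j => algebraMap B E (o'.1 j))
          (Polynomial.aeval (X j : MvPolynomial σ E) (Λ.scaleRoots c)) =
          Polynomial.aeval (tr (fun j => algebraMap B E (o'.1 j)) (X j)) (Λ.scaleRoots c) :=
        (Polynomial.aeval_algHom_apply _ _ _).symm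
      rw [e3, tr_X]
      by_cases hoo : o = o'
      · subst hoo
        have h4 : (Polynomial.X * Polynomial.C (C (algebraMap B E (o.1 j))) :
            Polynomial (MvPolynomial σ E)) = algebraMap E _ c * Polynomial.X := by
          rw [mul_comm]
          rfl
        rw [h4, h3.scale hc0, C_aeval, add_sub_cancel_left, aeval_scale]
        have h5 : Polynomial.aeval (Polynomial.X : Polynomial (MvPolynomial σ E)) Λ =
            Λ.map C := by
          rw [Polynomial.aeval_def]
          have h6 := Polynomial.eval₂_C_X (p := (Λ.map C : Polynomial (MvPolynomial σ E)))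
          rw [Polynomial.eval₂_map] at h6
          exact h6
        rw [h5]
        exact dvd_mul_left _ _
      · have h4 : o'.1 j = 0 := by
          have hsym : Std.Symm (fun o1 o2 : (σ → B) × Polynomial B =>
              ∀ j, o1.1 j = 0 ∨ o2.1 j = 0) := ⟨fun a b h j => (h j).symm⟩
          exact (hL.forall ho ho' hoo j).resolve_left hoj
        rw [h4, map_zero, C_0, Polynomial.C_0, mul_zero, add_zero, C_aeval, sub_self]
        exact dvd_zero _
    · push Not at hj
      refine ⟨Polynomial.X, Polynomial.monic_X, by rw [Polynomial.natDegree_X]; exact one_pos, ?_⟩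
      rw [mem_ring]
      intro o ho
      unfold Inv
      rw [Polynomial.aeval_X, tr_X, hj o ho, C_0, Polynomial.C_0, mul_zero, add_zero, sub_self]
      exact dvd_zero _

end data

section explicit

variable {R : Type u} [CommRing R] {σ : Type v} (p s : ℕ) (a : ℕ → R)

/-- The additive polynomial `T ^ (p ^ s) + ∑ l < s, a l * T ^ (p ^ l)`. -/
noncomputable def ap : Polynomial R :=
  Polynomial.X ^ p ^ s + ∑ l ∈ Finset.range s, Polynomial.C (a l) * Polynomial.X ^ p ^ l

lemma ap_map {S : Type*} [CommRing S] (f : R →+* S) : (ap p s a).map f = ap p s (fun l => f (a l)) := by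
  unfold ap
  rw [Polynomial.map_add, Polynomial.map_pow, Polynomial.map_X, Polynomial.map_sum]
  congr 1
  refine Finset.sum_congr rfl fun l _ => ?_
  rw [Polynomial.map_mul, Polynomial.map_C, Polynomial.map_pow, Polynomial.map_X]

lemma ap_deg_lt [Nontrivial R] [hp : Fact p.Prime] :
    (∑ l ∈ Finset.range s, Polynomial.C (a l) * Polynomial.X ^ p ^ l : Polynomial R).degree <
      (p ^ s : ℕ) := by
  refine lt_of_le_of_lt (Polynomial.degree_sum_le _ _) ?_
  rw [Finset.sup_lt_iff (WithBot.bot_lt_coe _)]
  intro l hl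
  refine lt_of_le_of_lt (Polynomial.degree_C_mul_X_pow_le _ _) ?_
  exact_mod_cast Nat.pow_lt_pow_right hp.out.one_lt (Finset.mem_range.1 hl)

lemma ap_monic [Nontrivial R] [hp : Fact p.Prime] : (ap p s a).Monic := by
  unfold ap
  exact Polynomial.monic_X_pow_add (ap_deg_lt p s a)

lemma ap_natDegree [Nontrivial R] [hp : Fact p.Prime] : (ap p s a).natDegree = p ^ s := by
  unfold ap
  apply Polynomial.natDegree_eq_of_degree_eq_some
  rw [Polynomial.degree_add_eq_left_of_degree_lt]
  · exact Polynomial.degree_X_pow _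
  · rw [Polynomial.degree_X_pow]
    exact ap_deg_lt p s a

lemma ap_addv [hp : Fact p.Prime] [CharP R p] : Addv σ (ap p s a) := by
  have : ExpChar (Polynomial (MvPolynomial σ R)) p :=
    haveI : CharP (MvPolynomial σ R) p := inferInstance
    haveI : CharP (Polynomial (MvPolynomial σ R)) p := inferInstance
    inferInstance
  intro x y
  unfold ap
  simp only [map_add, map_pow, map_sum, map_mul, Polynomial.aeval_X, Polynomial.aeval_C,
    add_pow_expChar_pow, mul_add, Finset.sum_add_distrib]
  ring

end explicit

end Pool.Agent.V11261.AK
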