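import Pool.Agent.V11261.AK.Chart
import Pool.Agent.V11261.AK.Base
import Pool.Agent.V11261.TQ.Chart
import Pool.Agent.H920R2.Trans

set_option autoImplicit false
set_option linter.unusedVariables false
set_option linter.unusedSectionVars false

open MvPolynomial AlgebraicGeometry CategoryTheory Pool.Agent.H920R2 Pool.Agent.W558

universe u v

namespace Pool.Agent.V11261.AK

open Pool.Agent.V11261.TQ (tr)

/-- The list of the group schemes. -/
noncomputable def lst {B : Type u} [CommRing B] {r : ℕ} {σ : Type} (w : Fin r → σ → B)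
    (Λ : Fin r → Polynomial B) : List ((σ → B) × Polynomial B) :=
  (List.finRange r).map fun i => (w i, Λ i)

lemma mem_ring_lst {k B : Type u} [Field k] [CommRing B] [Algebra k B] {r : ℕ} {σ : Type}
    (w : Fin r → σ → B) (Λ : Fin r → Polynomial B) (f : MvPolynomial σ B) :
    f ∈ ring k (lst w Λ) ↔ ∀ i, Inv (w i) (Λ i) f := by
  rw [mem_ring]
  constructor
  · intro h i
    exact h (w i, Λ i) (List.mem_map.2 ⟨i, List.mem_finRange i, rfl⟩)
  · intro h o ho
    obtain ⟨i, -, rfl⟩ := List.mem_map.1 ho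
    exact h i

/-- The quotients by the kernels of additive polynomials. -/
theorem main {k B E : Type u} [Field k] [CommRing B] [IsDomain B] [Algebra k B]
    [Algebra.FiniteType k B] [Field E] [Algebra k E] [Algebra B E] [IsScalarTower k B E]
    [IsFractionRing B E] {p : ℕ} [Fact p.Prime] [CharP B p] [CharP E p] {r : ℕ} {σ : Type}
    [Fintype σ] [DecidableEq σ] (w : Fin r → σ → B)
    (hw : ∀ i i', i ≠ i' → ∀ j, w i j = 0 ∨ w i' j = 0) (s : Fin r → ℕ) (a : Fin r → ℕ → B)
    {T I : Type} [Finite T]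
    (M : LM (IsScalarTower.toAlgHom k B E).range (IsScalarTower.toAlgHom k B E).range T I)
    (hM : ∀ t i, w i = 0 ∨ ∃ e, algebraMap B E (w i e) ≠ 0 ∧
      ∀ j, algebraMap B E (w i j) / algebraMap B E (w i e) ∈ M.A t) :
    IsVariety (X := Spec (CommRingCat.of (ring k (lst w fun i => ap p (s i) (a i)))))
      (Spec.map (CommRingCat.ofHom (algebraMap k (ring k (lst w fun i => ap p (s i) (a i)))))) ∧
    HasResolution (X := Spec (CommRingCat.of (ring k (lst w fun i => ap p (s i) (a i)))))
      (Spec.map (CommRingCat.ofHom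
        (algebraMap k (ring k (lst w fun i => ap p (s i) (a i)))))) := by
  classical
  have hp : p.Prime := Fact.out
  set L := lst w fun i => ap p (s i) (a i) with hLdef
  have hP : L.Pairwise (fun o1 o2 => ∀ j, o1.1 j = 0 ∨ o2.1 j = 0) := by
    rw [hLdef, lst, List.pairwise_map]
    exact (List.nodup_finRange r).imp fun h j => hw _ _ h j
  have hmem : ∀ o ∈ L, ∃ i, o = (w i, ap p (s i) (a i)) := by
    intro o ho
    obtain ⟨i, -, rfl⟩ := List.mem_map.1 ho
    exact ⟨i, rfl⟩
  have hD : Data (E := E) (ring k L) (ring k (L.map (bc E))) := by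
    refine data L hP fun o ho => ?_
    obtain ⟨i, rfl⟩ := hmem o ho
    refine ⟨ap_monic _ _ _, ?_, ?_⟩
    · change 0 < (ap p (s i) (a i)).natDegree
      rw [ap_natDegree]
      exact pow_pos hp.pos _
    · change Addv σ ((ap p (s i) (a i)).map (algebraMap B E))
      rw [ap_map]
      exact ap_addv p (s i) _
  have hft := hD.finiteType
  refine ⟨isVariety_spec, hD.hasResolution M fun t => ?_⟩
  refine chart (C' := M.A t) (L.map (bc E)) ?_ ?_
  · rw [List.pairwise_map]
    refine hP.imp ?_
    intro o1 o2 h j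
    rcases h j with h | h
    · left
      change algebraMap B E (o1.1 j) = 0
      rw [h, map_zero]
    · right
      change algebraMap B E (o2.1 j) = 0
      rw [h, map_zero]
  · intro o' ho'
    obtain ⟨o, ho, rfl⟩ := List.mem_map.1 ho'
    obtain ⟨i, rfl⟩ := hmem o ho
    refine ⟨fun j => M.base t ⟨w i j, rfl⟩, ?_, ?_, ?_, ?_, ?_⟩
    · intro l
      change ((ap p (s i) (a i)).map (algebraMap B E)).coeff l ∈ M.A t
      rw [Polynomial.coeff_map]
      exact M.base t ⟨_, rfl⟩
    · exact (ap_monic p (s i) (a i)).map _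
    · change 0 < ((ap p (s i) (a i)).map (algebraMap B E)).natDegree
      rw [ap_map, ap_natDegree]
      exact pow_pos hp.pos _
    · change Addv σ ((ap p (s i) (a i)).map (algebraMap B E))
      rw [ap_map]
      exact ap_addv p (s i) _
    · rcases hM t i with h | ⟨e, he, h⟩
      · left
        funext j
        change algebraMap B E (w i j) = 0
        rw [h, Pi.zero_apply, map_zero]
      · right
        exact ⟨e, he, h⟩

/-- Blowups. -/
theorem main_blowup {k B : Type u} [Field k] [CommRing B] [IsDomain B] [Algebra k B]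
    [Algebra.FiniteType k B] {p : ℕ} [Fact p.Prime] [CharP B p] {r N m : ℕ}
    (w : Fin r → Fin m → B)
    (hw : ∀ i i', i ≠ i' → ∀ j, w i j = 0 ∨ w i' j = 0) (hw0 : ∀ i, w i ≠ 0)
    (s : Fin r → ℕ) (a : Fin r → ℕ → B) (z : Fin N → B) (hz : ∃ l, z l ≠ 0)
    (hs : ∀ q : Fin N × (Fin r → Fin m), z q.1 * ∏ i, w i (q.2 i) ≠ 0 → Algebra.Smooth k
      (blc k (FractionRing B) (fun q : Fin N × (Fin r → Fin m) => z q.1 * ∏ i, w i (q.2 i)) q)) :
    IsVariety (X := Spec (CommRingCat.of (ring k (lst w fun i => ap p (s i) (a i)))))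
      (Spec.map (CommRingCat.ofHom (algebraMap k (ring k (lst w fun i => ap p (s i) (a i)))))) ∧
    HasResolution (X := Spec (CommRingCat.of (ring k (lst w fun i => ap p (s i) (a i)))))
      (Spec.map (CommRingCat.ofHom
        (algebraMap k (ring k (lst w fun i => ap p (s i) (a i)))))) := by
  classical
  let E := FractionRing B
  have hE : CharP E p := charP_of_injective_algebraMap (IsFractionRing.injective B E) p
  have hinj : ∀ b : B, algebraMap B E b ≠ 0 ↔ b ≠ 0 := fun b =>
    (FaithfulSMul.algebraMap_eq_zero_iff B E).not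
  let y : Fin N × (Fin r → Fin m) → B := fun q => z q.1 * ∏ i, w i (q.2 i)
  obtain ⟨M, hM⟩ := exists_blowup_LM (k := k) (E := E) y (by
    obtain ⟨l, hl⟩ := hz
    have h1 : ∀ i, ∃ j, w i j ≠ 0 := by
      intro i
      by_contra hcon
      push Not at hcon
      exact hw0 i (funext hcon)
    choose e he using h1
    exact ⟨(l, e), (hinj _).2 (mul_ne_zero hl (Finset.prod_ne_zero_iff.2 fun i _ => he i))⟩)
    (fun q hq => hs q ((hinj _).1 hq))
  refine main (E := E) w hw s a M fun t i => Or.inr ?_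
  have ht : y t.1 ≠ 0 := (hinj _).1 t.2
  have ht1 : z t.1.1 ≠ 0 := left_ne_zero_of_mul ht
  have ht2 : ∀ i, w i (t.1.2 i) ≠ 0 := fun i =>
    Finset.prod_ne_zero_iff.1 (right_ne_zero_of_mul ht) i (Finset.mem_univ i)
  refine ⟨t.1.2 i, (hinj _).2 (ht2 i), fun j => ?_⟩
  rw [hM t]
  have h1 := div_mem_blc (k := k) (E := E) y t.1 (t.1.1, Function.update t.1.2 i j)
  have h2 : algebraMap B E (y (t.1.1, Function.update t.1.2 i j)) / algebraMap B E (y t.1) =
      algebraMap B E (w i j) / algebraMap B E (w i (t.1.2 i)) := by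
    have h3 : y (t.1.1, Function.update t.1.2 i j) * w i (t.1.2 i) = y t.1 * w i j := by
      change z t.1.1 * (∏ i', w i' (Function.update t.1.2 i j i')) * w i (t.1.2 i) =
        z t.1.1 * (∏ i', w i' (t.1.2 i')) * w i j
      rw [← Finset.mul_prod_erase Finset.univ _ (Finset.mem_univ i),
        ← Finset.mul_prod_erase Finset.univ (fun i' => w i' (t.1.2 i')) (Finset.mem_univ i),
        Function.update_self]
      have h4 : ∏ x ∈ Finset.univ.erase i, w x (Function.update t.1.2 i j x) =
          ∏ x ∈ Finset.univ.erase i, w x (t.1.2 x) := by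
        refine Finset.prod_congr rfl fun x hx => ?_
        rw [Function.update_of_ne (Finset.ne_of_mem_erase hx)]
      rw [h4]
      ring
    rw [div_eq_div_iff t.2 ((hinj _).2 (ht2 i)), ← map_mul, ← map_mul, h3, mul_comm]
  rw [← h2]
  exact h1

/-- Monomials over surfaces. -/
theorem main_tor {k B : Type u} [Field k] [CommRing B] [IsDomain B] [Algebra k B]
    [Algebra.FiniteType k B] (hE : Pool.Agent.W418.LCI.HasLM k (FractionRing B))
    {p : ℕ} [Fact p.Prime] [CharP B p] {r n m : ℕ} (b : Fin r → Fin m → B)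
    (hb : ∀ i i', i ≠ i' → ∀ j, b i j = 0 ∨ b i' j = 0) (α : Fin r → Fin m → Fin n → ℕ)
    (s : Fin r → ℕ) (a : Fin r → ℕ → MvPolynomial (Fin n) B) :
    IsVariety (X := Spec (CommRingCat.of (ring k (lst
        (fun i j => C (b i j) * ∏ l, X l ^ α i j l) fun i => ap p (s i) (a i)))))
      (Spec.map (CommRingCat.ofHom (algebraMap k (ring k (lst
        (fun i j => C (b i j) * ∏ l, X l ^ α i j l) fun i => ap p (s i) (a i)))))) ∧
    HasResolution (X := Spec (CommRingCat.of (ring k (lst
        (fun i j => C (b i j) * ∏ l, X l ^ α i j l) fun i => ap p (s i) (a i)))))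
      (Spec.map (CommRingCat.ofHom (algebraMap k (ring k (lst
        (fun i j => C (b i j) * ∏ l, X l ^ α i j l) fun i => ap p (s i) (a i)))))) := by
  classical
  let 𝔅 := MvPolynomial (Fin n) B
  let E := FractionRing 𝔅
  have h𝔅 : CharP 𝔅 p := inferInstance
  have hEp : CharP E p := charP_of_injective_algebraMap (IsFractionRing.injective 𝔅 E) p
  have hft : Algebra.FiniteType k 𝔅 := by
    have : Algebra.FiniteType B 𝔅 := inferInstance
    exact Algebra.FiniteType.trans (S := B) inferInstance inferInstance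
  have hinj : ∀ b : 𝔅, algebraMap 𝔅 E b = 0 ↔ b = 0 := fun b =>
    FaithfulSMul.algebraMap_eq_zero_iff 𝔅 E
  let ι := {x : Fin r × Fin m // b x.1 x.2 ≠ 0}
  obtain ⟨T, I, i1, i2, M, hM⟩ := exists_tor (k := k) hE n (ι := ι) (fun x => b x.1.1 x.1.2)
    (fun x => x.2) (fun x => α x.1.1 x.1.2)
  let w : Fin r → Fin m → 𝔅 := fun i j => C (b i j) * ∏ l, X l ^ α i j l
  have hw0 : ∀ i j, b i j = 0 → w i j = 0 := by
    intro i j h
    change C (b i j) * _ = 0
    rw [h, C_0, zero_mul]
  have hw1 : ∀ i j, w i j ≠ 0 → b i j ≠ 0 := fun i j h h' => h (hw0 i j h')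
  refine main (E := E) w (fun i i' h j => (hb i i' h j).imp (hw0 i j) (hw0 i' j)) s a M ?_
  intro t i
  by_cases h0 : w i = 0
  · exact Or.inl h0
  · right
    have h1 : (fun j => algebraMap 𝔅 E (w i j)) ≠ 0 := by
      intro h
      apply h0
      funext j
      exact (hinj _).1 (congrFun h j)
    obtain ⟨e, he0, he⟩ := Pool.Agent.V11261.TQ.exists_min_index (C' := M.A t) h1 (by
      intro j j' hj hj'
      have g1 := hw1 i j fun h => hj (by rw [h, map_zero])
      have g2 := hw1 i j' fun h => hj' (by rw [h, map_zero])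
      exact hM t ⟨(i, j), g1⟩ ⟨(i, j'), g2⟩)
    exact ⟨e, he0, he⟩

end Pool.Agent.V11261.AK
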