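import Pool.Agent.V11261.TQ.One

set_option autoImplicit false
set_option linter.unusedVariables false
set_option linter.unusedSectionVars false

open MvPolynomial

universe u v

namespace Pool.Agent.V11261.AK

open Pool.Agent.V11261.TQ (tr tr_X tr_C tr_zero cf mem_cf C_mem_cf X_mem_cf aeval_mem_cf
  totalDegree_aeval_le)

section defs

variable {R : Type u} [CommRing R] {σ : Type v}

/-- Additive polynomials. -/
def Addv (σ : Type v) (Λ : Polynomial R) : Prop :=
  ∀ x y : Polynomial (MvPolynomial σ R), Polynomial.aeval (x + y) Λ =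
    Polynomial.aeval x Λ + Polynomial.aeval y Λ

/-- Invariance under the translations by `T * w` with `Λ (T) = 0`. -/
def Inv (w : σ → R) (Λ : Polynomial R) (f : MvPolynomial σ R) : Prop :=
  Λ.map C ∣ tr w f - Polynomial.C f

lemma inv_zero (Λ : Polynomial R) (f : MvPolynomial σ R) : Inv (0 : σ → R) Λ f := by
  rw [Inv, tr_zero, sub_self]
  exact dvd_zero _

lemma C_aeval (x : MvPolynomial σ R) (Λ : Polynomial R) :
    Polynomial.aeval (Polynomial.C x) Λ = Polynomial.C (Polynomial.aeval x Λ) :=
  Polynomial.aeval_algHom_apply (Polynomial.CAlgHom (R := R) (A := MvPolynomial σ R)) _ _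

lemma Addv.mv {Λ : Polynomial R} (h : Addv σ Λ) (x y : MvPolynomial σ R) :
    Polynomial.aeval (x + y) Λ = Polynomial.aeval x Λ + Polynomial.aeval y Λ := by
  apply Polynomial.C_injective
  rw [← C_aeval, map_add, h, C_aeval, C_aeval, map_add]

lemma Addv.zero {Λ : Polynomial R} (h : Addv σ Λ) :
    Polynomial.aeval (0 : MvPolynomial σ R) Λ = 0 := by
  have := h.mv 0 0
  rw [add_zero] at this
  exact left_eq_add.1 this

lemma Addv.neg {Λ : Polynomial R} (h : Addv σ Λ) (x : MvPolynomial σ R) :
    Polynomial.aeval (-x) Λ = - Polynomial.aeval x Λ := by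
  have := h.mv (-x) x
  rw [neg_add_cancel, h.zero] at this
  exact eq_neg_of_add_eq_zero_left this.symm

end defs

section transport

variable {E : Type u} [Field E] {σ : Type v}

lemma dvd_map_iff {ψ : MvPolynomial σ E →ₐ[E] MvPolynomial σ E} (hψ : Function.Injective ψ)
    {Λ : Polynomial E} (hΛ : Λ.Monic) (h : Polynomial (MvPolynomial σ E)) :
    Λ.map C ∣ h.map (ψ : MvPolynomial σ E →+* MvPolynomial σ E) ↔
      (Λ.map C : Polynomial (MvPolynomial σ E)) ∣ h := by
  have hm : (Λ.map C : Polynomial (MvPolynomial σ E)).Monic := hΛ.map _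
  have e1 : (Λ.map C : Polynomial (MvPolynomial σ E)).map
      (ψ : MvPolynomial σ E →+* MvPolynomial σ E) = Λ.map C := by
    rw [Polynomial.map_map]
    congr 1
    ext a
    exact congrArg _ (ψ.commutes a)
  rw [← Polynomial.modByMonic_eq_zero_iff_dvd hm, ← Polynomial.modByMonic_eq_zero_iff_dvd hm]
  conv_lhs => rw [← e1, ← Polynomial.map_modByMonic _ hm]
  exact Polynomial.map_eq_zero_iff (f := (ψ : MvPolynomial σ E →+* MvPolynomial σ E)) hψ

theorem inv_transport {ψ : MvPolynomial σ E →ₐ[E] MvPolynomial σ E} (hψ : Function.Injective ψ)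
    {w w' : σ → E} {Λ : Polynomial E} (hΛ : Λ.Monic)
    (h : ∀ j, Λ.map C ∣ tr w (ψ (X j)) -
      (Polynomial.C (ψ (X j)) + Polynomial.X * Polynomial.C (C (w' j))))
    (f : MvPolynomial σ E) : Inv w Λ (ψ f) ↔ Inv w' Λ f := by
  let I : Ideal (Polynomial (MvPolynomial σ E)) := Ideal.span {Λ.map C}
  let π : Polynomial (MvPolynomial σ E) →ₐ[E] (Polynomial (MvPolynomial σ E) ⧸ I) :=
    Ideal.Quotient.mkₐ E I
  have hπ : ∀ x y, π x = π y ↔ Λ.map C ∣ x - y := by
    intro x y
    change (Ideal.Quotient.mk I x = Ideal.Quotient.mk I y) ↔ _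
    rw [Ideal.Quotient.eq, Ideal.mem_span_singleton]
  have key : (π.comp (tr w)).comp ψ = (π.comp (Polynomial.mapAlgHom ψ)).comp (tr w') := by
    apply MvPolynomial.algHom_ext
    intro j
    change π (tr w (ψ (X j))) = π (Polynomial.mapAlgHom ψ (tr w' (X j)))
    rw [hπ]
    have e1 : Polynomial.mapAlgHom ψ (tr w' (X j)) =
        Polynomial.C (ψ (X j)) + Polynomial.X * Polynomial.C (C (w' j)) := by
      rw [tr_X, map_add, map_mul]
      simp only [Polynomial.coe_mapAlgHom, Polynomial.map_C, Polynomial.map_X]
      have : ψ (C (w' j)) = C (w' j) := ψ.commutes (w' j)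
      change Polynomial.C (ψ (X j)) + Polynomial.X * Polynomial.C (ψ (C (w' j))) = _
      rw [this]
    rw [e1]
    exact h j
  have k2 : Λ.map C ∣ tr w (ψ f) - Polynomial.mapAlgHom ψ (tr w' f) := by
    rw [← hπ]
    exact DFunLike.congr_fun key f
  have k3 : tr w (ψ f) - Polynomial.C (ψ f) =
      (tr w (ψ f) - Polynomial.mapAlgHom ψ (tr w' f)) +
        (tr w' f - Polynomial.C f).map (ψ : MvPolynomial σ E →+* MvPolynomial σ E) := by
    have e2 : Polynomial.mapAlgHom ψ (tr w' f) =
      (tr w' f).map (ψ : MvPolynomial σ E →+* MvPolynomial σ E) := rfl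
    rw [e2, Polynomial.map_sub, Polynomial.map_C]
    change _ = _ + (_ - Polynomial.C (ψ f))
    ring
  unfold Inv
  rw [k3, dvd_add_right k2, dvd_map_iff hψ hΛ]

end transport

section psi

variable {E : Type u} [Field E] {σ : Type v} [DecidableEq σ]

/-- The substitution `X j ↦ X j - u j * X e` for `j ≠ e` and `X e ↦ L (X e)`. -/
noncomputable def psi (e : σ) (u : σ → E) (L : Polynomial E) :
    MvPolynomial σ E →ₐ[E] MvPolynomial σ E :=
  aeval fun j => if j = e then Polynomial.aeval (X e) L else X j - C (u j) * X e

lemma psi_e (e : σ) (u : σ → E) (L : Polynomial E) :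
    psi e u L (X e) = Polynomial.aeval (X e) L := by
  rw [psi, aeval_X, if_pos rfl]

lemma psi_ne (e : σ) (u : σ → E) (L : Polynomial E) {j : σ} (hj : j ≠ e) :
    psi e u L (X j) = X j - C (u j) * X e := by
  rw [psi, aeval_X, if_neg hj]

lemma psi_injective (e : σ) (u : σ → E) {L : Polynomial E} (hL : 0 < L.natDegree) :
    Function.Injective (psi e u L) := by
  rw [injective_iff_map_eq_zero]
  intro g hg
  let F := AlgebraicClosure E
  have hinj : Function.Injective (algebraMap E F) := (algebraMap E F).injective
  have h1 : MvPolynomial.map (algebraMap E F) g = 0 := by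
    apply MvPolynomial.funext
    intro y
    rw [map_zero]
    obtain ⟨t, ht⟩ : ∃ t : F, Polynomial.aeval t L = y e := by
      have hm : (L.map (algebraMap E F) - Polynomial.C (y e)).degree ≠ 0 := by
        have h4 : (L.map (algebraMap E F) - Polynomial.C (y e)).natDegree = L.natDegree := by
          rw [Polynomial.natDegree_sub_C, Polynomial.natDegree_map]
        intro h5
        have h6 : (L.map (algebraMap E F) - Polynomial.C (y e)).natDegree = 0 :=
          Polynomial.natDegree_eq_of_degree_eq_some (by rw [h5]; rfl)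
        rw [h4] at h6
        omega
      obtain ⟨t, ht⟩ := IsAlgClosed.exists_root _ hm
      refine ⟨t, ?_⟩
      rw [Polynomial.IsRoot.def, Polynomial.eval_sub, Polynomial.eval_C,
        Polynomial.eval_map_algebraMap, sub_eq_zero] at ht
      exact ht
    let x : σ → F := fun j => if j = e then t else y j + algebraMap E F (u j) * t
    have h7 : (aeval x).comp (psi e u L) = (aeval y : MvPolynomial σ E →ₐ[E] F) := by
      apply MvPolynomial.algHom_ext
      intro j
      change aeval x (psi e u L (X j)) = _
      rw [aeval_X]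
      by_cases hj : j = e
      · subst hj
        rw [psi_e, ← Polynomial.aeval_algHom_apply, aeval_X]
        have hx : x j = t := if_pos rfl
        rw [hx, ht]
      · rw [psi_ne _ _ _ hj, map_sub, map_mul, aeval_X, aeval_C, aeval_X]
        have hx : x e = t := if_pos rfl
        have hx' : x j = y j + algebraMap E F (u j) * t := if_neg hj
        rw [hx, hx']
        ring
    have h8 : aeval y g = (0 : F) := by
      have := DFunLike.congr_fun h7 g
      rw [← this]
      change aeval x (psi e u L g) = 0
      rw [hg, map_zero]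
    rw [eval_map]
    exact h8
  exact (MvPolynomial.map_injective (algebraMap E F) hinj) (by rw [h1, map_zero])

end psi

section scale

variable {E : Type u} [Field E] {σ : Type v}

lemma aeval_scale {S : Type*} [CommRing S] [Algebra E S] (Λ : Polynomial E) (c : E) (x : S) :
    Polynomial.aeval (algebraMap E S c * x) (Λ.scaleRoots c) =
      algebraMap E S c ^ Λ.natDegree * Polynomial.aeval x Λ :=
  Polynomial.scaleRoots_eval₂_mul _ _ _

lemma Addv.scale {Λ : Polynomial E} (h : Addv σ Λ) {c : E} (hc : c ≠ 0) :
    Addv σ (Λ.scaleRoots c) := by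
  intro x y
  have h1 : ∀ z : Polynomial (MvPolynomial σ E), algebraMap E _ c * (algebraMap E _ c⁻¹ * z) = z := by
    intro z
    rw [← mul_assoc, ← map_mul, mul_inv_cancel₀ hc, map_one, one_mul]
  have h2 : ∀ z : Polynomial (MvPolynomial σ E), Polynomial.aeval z (Λ.scaleRoots c) =
      algebraMap E _ c ^ Λ.natDegree * Polynomial.aeval (algebraMap E _ c⁻¹ * z) Λ := by
    intro z
    conv_lhs => rw [← h1 z]
    exact aeval_scale Λ c _
  rw [h2, h2, h2, mul_add, h, mul_add]

end scale

section one

variable {k E : Type u} [Field k] [Field E] [Algebra k E] {σ : Type v} [DecidableEq σ]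

lemma mem_of_mul {C' : Subalgebra k E} {e : σ} {L : Polynomial E} (hL : L.Monic)
    (hLC : ∀ i, L.coeff i ∈ C') (hN : 0 < L.natDegree) {f : MvPolynomial σ E}
    (h : Polynomial.aeval (X e) L * f ∈ cf σ C') : f ∈ cf σ C' := by
  rw [mem_cf] at h ⊢
  set N := L.natDegree with hNdef
  have key : ∀ d, coeff d f = coeff (Finsupp.single e N + d) (Polynomial.aeval (X e) L * f) -
      ∑ i ∈ Finset.range N, L.coeff i * coeff (Finsupp.single e (N - i) + d) f := by
    intro d
    have h1 : (Polynomial.aeval (X e : MvPolynomial σ E) L) * f =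
        ∑ i ∈ Finset.range (N + 1), C (L.coeff i) * (monomial (Finsupp.single e i) 1 * f) := by
      rw [Polynomial.aeval_eq_sum_range, Finset.sum_mul]
      refine Finset.sum_congr rfl fun i _ => ?_
      rw [X_pow_eq_monomial, smul_eq_C_mul, mul_assoc]
    have h2 : ∀ i ∈ Finset.range (N + 1), coeff (Finsupp.single e N + d)
        (C (L.coeff i) * (monomial (Finsupp.single e i) 1 * f)) =
        L.coeff i * coeff (Finsupp.single e (N - i) + d) f := by
      intro i hi
      rw [Finset.mem_range] at hi
      have h3 : Finsupp.single e N + d = Finsupp.single e i + (Finsupp.single e (N - i) + d) := by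
        rw [← add_assoc, ← Finsupp.single_add]
        congr 2
        omega
      rw [coeff_C_mul, h3, coeff_monomial_mul, one_mul]
    rw [h1, coeff_sum, Finset.sum_congr rfl h2, Finset.sum_range_succ, Nat.sub_self,
      Finsupp.single_zero, zero_add]
    have h4 : L.coeff N = 1 := hL
    rw [h4, one_mul]
    ring
  have h2 : ∀ (n : ℕ) (d : σ →₀ ℕ), f.totalDegree < d e + n → coeff d f ∈ C' := by
    intro n
    induction n with
    | zero =>
      intro d hd
      have h3 : coeff d f = 0 := by
        by_contra h4
        have h5 := le_totalDegree (mem_support_iff.2 h4)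
        have h6 : d e ≤ d.sum fun _ e => e := by
          by_cases h7 : e ∈ d.support
          · exact Finset.single_le_sum (f := fun i => d i) (fun _ _ => Nat.zero_le _) h7
          · rw [Finsupp.notMem_support_iff.1 h7]; exact Nat.zero_le _
        omega
      rw [h3]
      exact C'.zero_mem
    | succ n ih =>
      intro d hd
      rw [key d]
      refine C'.sub_mem (h _) (C'.sum_mem fun i hi => C'.mul_mem (hLC i) (ih _ ?_))
      rw [Finset.mem_range] at hi
      rw [Finsupp.add_apply, Finsupp.single_eq_same]
      omega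
  intro d
  exact h2 (f.totalDegree + 1) d (by omega)

lemma inv_sub {w : σ → E} {Λ : Polynomial E} {f g : MvPolynomial σ E} (hf : Inv w Λ f)
    (hg : Inv w Λ g) : Inv w Λ (f - g) := by
  unfold Inv at *
  have : tr w (f - g) - Polynomial.C (f - g) = (tr w f - Polynomial.C f) -
      (tr w g - Polynomial.C g) := by
    rw [map_sub, map_sub]; ring
  rw [this]
  exact dvd_sub hf hg

lemma inv_of_mul {w : σ → E} {Λ : Polynomial E} (hΛ : Λ.Monic) {f g : MvPolynomial σ E}
    (hg0 : g ≠ 0) (hg : Inv w Λ g) (h : Inv w Λ (g * f)) : Inv w Λ f := by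
  have hm : (Λ.map C : Polynomial (MvPolynomial σ E)).Monic := hΛ.map _
  unfold Inv at *
  have h1 : tr w (g * f) - Polynomial.C (g * f) =
      (tr w g - Polynomial.C g) * tr w f + Polynomial.C g * (tr w f - Polynomial.C f) := by
    rw [map_mul, map_mul]; ring
  rw [h1, dvd_add_right (dvd_mul_of_dvd_left hg _)] at h
  rw [← Polynomial.smul_eq_C_mul, ← Polynomial.modByMonic_eq_zero_iff_dvd hm,
    Polynomial.smul_modByMonic, smul_eq_zero] at h
  rw [← Polynomial.modByMonic_eq_zero_iff_dvd hm]
  exact h.resolve_left hg0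

/-- All polynomials in the new coordinates are invariant. -/
lemma inv_psi (e : σ) {u : σ → E} (hue : u e = 1) {c : E} (hc0 : c ≠ 0)
    {Λ : Polynomial E} (hΛ : Λ.Monic) (hΛN : 0 < Λ.natDegree) (hadd : Addv σ Λ)
    (g : MvPolynomial σ E) :
    Inv (fun j => c * u j) Λ (psi e u (Λ.scaleRoots c) g) := by
  have hLN : 0 < (Λ.scaleRoots c).natDegree := by rwa [Polynomial.natDegree_scaleRoots]
  have h1 := inv_transport (psi_injective e u hLN) (w := fun j => c * u j) (w' := 0) hΛ
    (by
      intro j
      by_cases hj : j = e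
      · subst hj
        rw [psi_e]
        have h2 : tr (fun j => c * u j) (Polynomial.aeval (X j) (Λ.scaleRoots c)) =
            Polynomial.aeval (tr (fun j => c * u j) (X j)) (Λ.scaleRoots c) :=
          (Polynomial.aeval_algHom_apply _ _ _).symm
        have h3 : (Polynomial.X * Polynomial.C (C (c * u j)) : Polynomial (MvPolynomial σ E)) =
            algebraMap E _ c * Polynomial.X := by
          rw [hue, mul_one, mul_comm]
          rfl
        rw [h2, tr_X, hadd.scale hc0, C_aeval, h3, aeval_scale]
        have h4 : Polynomial.aeval (Polynomial.X : Polynomial (MvPolynomial σ E)) Λ =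
            Λ.map C := by
          have h5 := Polynomial.eval₂_C_X (p := (Λ.map C : Polynomial (MvPolynomial σ E)))
          rw [Polynomial.eval₂_map] at h5
          exact h5
        rw [h4]
        simp only [Pi.zero_apply, C_0, Polynomial.C_0, mul_zero, add_zero]
        rw [add_sub_cancel_left]
        exact dvd_mul_left _ _
      · rw [psi_ne _ _ _ hj, map_sub, map_mul, tr_X, tr_X, tr_C]
        simp only [hue, map_sub, map_mul, mul_one, Pi.zero_apply, C_0, Polynomial.C_0, mul_zero,
          add_zero]
        refine ⟨0, ?_⟩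
        ring) g
  rw [h1]
  exact inv_zero _ _

/-- One step. -/
theorem mem_of_inv {C' : Subalgebra k E} (e : σ) {u : σ → E}
    (hu : ∀ j, u j ∈ C') (hue : u e = 1) {c : E} (hc : c ∈ C') (hc0 : c ≠ 0)
    {Λ : Polynomial E} (hΛC : ∀ i, Λ.coeff i ∈ C') (hΛ : Λ.Monic) (hΛN : 0 < Λ.natDegree)
    (hadd : Addv σ Λ) : ∀ (n : ℕ) (f : MvPolynomial σ E),
    f ∈ cf σ C' → f.totalDegree < n → Inv (fun j => c * u j) Λ f →
    ∃ g ∈ cf σ C', f = psi e u (Λ.scaleRoots c) g := by
  set L := Λ.scaleRoots c with hLdef
  have hLN : 0 < L.natDegree := by rwa [hLdef, Polynomial.natDegree_scaleRoots]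
  have hLm : L.Monic := (Polynomial.monic_scaleRoots_iff c).2 hΛ
  have hLC : ∀ i, L.coeff i ∈ C' := by
    intro i
    rw [hLdef, Polynomial.coeff_scaleRoots]
    exact C'.mul_mem (hΛC i) (C'.pow_mem hc _)
  have hinv := inv_psi e hue hc0 hΛ hΛN hadd
  intro n
  induction n with
  | zero => intro f _ h; omega
  | succ n ih =>
    intro f hf hd hi
    -- the substitution
    let S : Polynomial (MvPolynomial σ E) →+* MvPolynomial σ E :=
      Polynomial.evalRingHom (-(C c⁻¹ * X e))
    let πf : MvPolynomial σ E := aeval (fun j => X j - C (u j) * X e) f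
    let π0f : MvPolynomial σ E := aeval (fun j => if j = e then 0 else X j) f
    have e1 : psi e u L π0f = πf := by
      have h1 : (psi e u L).comp (aeval (fun j => if j = e then 0 else X j)) =
          (aeval (fun j => X j - C (u j) * X e) : MvPolynomial σ E →ₐ[E] MvPolynomial σ E) := by
        apply MvPolynomial.algHom_ext
        intro j
        rw [AlgHom.comp_apply, aeval_X, aeval_X]
        by_cases hj : j = e
        · rw [if_pos hj, map_zero, hj, hue, C_1, one_mul, sub_self]
        · rw [if_neg hj, psi_ne _ _ _ hj]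
      exact DFunLike.congr_fun h1 f
    have e2 : S (tr (fun j => c * u j) f) = πf := by
      have h1 : (S.comp (tr (fun j => c * u j) : MvPolynomial σ E →+* _)) =
          ((aeval (fun j => X j - C (u j) * X e) : MvPolynomial σ E →ₐ[E] MvPolynomial σ E) :
            MvPolynomial σ E →+* MvPolynomial σ E) := by
        apply MvPolynomial.ringHom_ext
        · intro a
          change S (tr _ (C a)) = aeval _ (C a)
          rw [tr_C, aeval_C]
          change Polynomial.eval _ _ = _
          rw [Polynomial.eval_C]
          rfl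
        · intro j
          change S (tr _ (X j)) = aeval _ (X j)
          rw [tr_X, aeval_X]
          change Polynomial.eval _ _ = _
          rw [Polynomial.eval_add, Polynomial.eval_mul, Polynomial.eval_C, Polynomial.eval_C,
            Polynomial.eval_X]
          have h2 : (C c⁻¹ * C (c * u j) : MvPolynomial σ E) = C (u j) := by
            rw [← C_mul]
            congr 1
            field_simp
          calc X j + -(C c⁻¹ * X e) * C (c * u j) = X j - (C c⁻¹ * C (c * u j)) * X e := by ring
            _ = _ := by rw [h2]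
      exact DFunLike.congr_fun h1 f
    have e3 : (Polynomial.aeval (X e) L : MvPolynomial σ E) ∣ S (Λ.map C) := by
      have h1 : S (Λ.map C) = Polynomial.aeval (-(C c⁻¹ * X e) : MvPolynomial σ E) Λ := by
        change Polynomial.eval _ _ = _
        rw [Polynomial.eval_map, Polynomial.aeval_def]
        rfl
      have h2 : (X e : MvPolynomial σ E) = algebraMap E _ c * (C c⁻¹ * X e) := by
        have : (algebraMap E (MvPolynomial σ E) c) = C c := rfl
        rw [this, ← mul_assoc, ← C_mul, mul_inv_cancel₀ hc0, C_1, one_mul]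
      have h3 : (Polynomial.aeval (X e) L : MvPolynomial σ E) =
          algebraMap E _ c ^ Λ.natDegree * Polynomial.aeval (C c⁻¹ * X e) Λ := by
        conv_lhs => rw [h2]
        exact aeval_scale Λ c _
      rw [h1, hadd.neg, dvd_neg]
      refine ⟨algebraMap E _ c⁻¹ ^ Λ.natDegree, ?_⟩
      rw [h3]
      have h4 : (algebraMap E (MvPolynomial σ E) c) ^ Λ.natDegree *
          (algebraMap E (MvPolynomial σ E) c⁻¹) ^ Λ.natDegree = 1 := by
        rw [← mul_pow, ← map_mul, mul_inv_cancel₀ hc0, map_one, one_pow]
      calc Polynomial.aeval (C c⁻¹ * X e) Λ = ((algebraMap E (MvPolynomial σ E) c) ^ Λ.natDegree *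
          (algebraMap E (MvPolynomial σ E) c⁻¹) ^ Λ.natDegree) *
            Polynomial.aeval (C c⁻¹ * X e) Λ := by rw [h4, one_mul]
        _ = _ := by ring
    obtain ⟨f1, hf1⟩ : (Polynomial.aeval (X e) L) ∣ f - πf := by
      have h1 : S (Λ.map C) ∣ S (tr (fun j => c * u j) f - Polynomial.C f) :=
        map_dvd S hi
      rw [map_sub, e2] at h1
      have h2 : S (Polynomial.C f) = f := Polynomial.eval_C
      rw [h2] at h1
      exact dvd_sub_comm.1 (e3.trans h1)
    have hπ0 : π0f ∈ cf σ C' := by
      refine aeval_mem_cf (fun j => ?_) hf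
      split_ifs
      · exact Subalgebra.zero_mem _
      · exact X_mem_cf C' j
    have hπ : πf ∈ cf σ C' := by
      refine aeval_mem_cf (fun j => ?_) hf
      exact Subalgebra.sub_mem _ (X_mem_cf C' j)
        (Subalgebra.mul_mem _ (C_mem_cf (hu j)) (X_mem_cf C' e))
    have hf1C : f1 ∈ cf σ C' := by
      refine mem_of_mul hLm hLC hLN (e := e) ?_
      rw [← hf1]
      exact Subalgebra.sub_mem _ hf hπ
    by_cases h0 : f1 = 0
    · refine ⟨π0f, hπ0, ?_⟩
      rw [e1]
      rw [h0, mul_zero, sub_eq_zero] at hf1
      exact hf1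
    have hL0 : (Polynomial.aeval (X e) L : MvPolynomial σ E) ≠ 0 := by
      have h1 := psi_injective e u hLN
      rw [← psi_e e u]
      intro h2
      exact MvPolynomial.X_ne_zero e (h1 (by rw [h2, map_zero]))
    have hdeg : f1.totalDegree < n := by
      have h1 : ((Polynomial.aeval (X e) L) * f1).totalDegree =
          (Polynomial.aeval (X e) L : MvPolynomial σ E).totalDegree + f1.totalDegree :=
        totalDegree_mul_of_isDomain hL0 h0
      have h2 : 0 < (Polynomial.aeval (X e) L : MvPolynomial σ E).totalDegree := by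
        by_contra h3
        have h4 : (Polynomial.aeval (X e) L : MvPolynomial σ E).totalDegree = 0 := by omega
        obtain h5 := totalDegree_eq_zero_iff_eq_C.1 h4
        have h8 := psi_injective e u hLN
        have h9 : psi e u L (X e) = psi e u L
            (C (coeff 0 (Polynomial.aeval (X e) L : MvPolynomial σ E))) := by
          rw [psi_e]
          refine h5.trans ?_
          exact ((psi e u L).commutes _).symm
        have h10 := congrArg totalDegree (h8 h9)
        rw [totalDegree_X, totalDegree_C] at h10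
        exact one_ne_zero h10
      have h3 : (f - πf).totalDegree ≤ f.totalDegree := by
        refine (totalDegree_sub _ _).trans (max_le le_rfl ?_)
        refine totalDegree_aeval_le (fun j => ?_) f
        refine (totalDegree_sub _ _).trans (max_le (totalDegree_X j).le ?_)
        refine (totalDegree_mul _ _).trans ?_
        rw [totalDegree_C, zero_add]
        exact (totalDegree_X e).le
      rw [hf1, h1] at h3
      omega
    have hi1 : Inv (fun j => c * u j) Λ f1 := by
      refine inv_of_mul hΛ hL0 ?_ ?_
      · rw [← psi_e e u]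
        exact hinv _
      · rw [← hf1]
        refine inv_sub hi ?_
        rw [← e1]
        exact hinv _
    obtain ⟨g1, hg1, hg1'⟩ := ih f1 hf1C hdeg hi1
    refine ⟨π0f + X e * g1, Subalgebra.add_mem _ hπ0 (Subalgebra.mul_mem _ (X_mem_cf C' e) hg1),
      ?_⟩
    rw [map_add, map_mul, e1, psi_e, ← hg1', ← hf1]
    ring

end one

end Pool.Agent.V11261.AK
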